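import Mathlib
import Pool.Agent.KS6_27.SRb

set_option autoImplicit false

namespace Pool.Agent.Results.MP_7249a2_al.NotDirectlyFinite

/-- `*`-regular: von Neumann regular with a proper involution. -/
def StarRegular (R : Type) [Ring R] [StarRing R] : Prop :=
  (∀ a : R, ∃ x : R, a * x * a = a) ∧ (∀ x : R, star x * x = 0 → x = 0)

/-- Unit-regular. -/
def UnitRegular (R : Type) [Ring R] : Prop := ∀ a : R, ∃ u : Rˣ, a * (u : R) * a = a

/-- Directly finite (Dedekind-finite). -/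
def DirectlyFinite (R : Type) [Ring R] : Prop := ∀ a b : R, a * b = 1 → b * a = 1

theorem not_unitRegular {R : Type} [Ring R] (h : ¬ DirectlyFinite R) : ¬ UnitRegular R := by
  unfold DirectlyFinite at h
  push Not at h
  obtain ⟨a, b, hab, hba⟩ := h
  intro hu
  obtain ⟨u, hu⟩ := hu b
  have h1 : (u : R) * b = 1 := by
    calc (u : R) * b = (a * b) * (u : R) * b := by rw [hab, one_mul]
      _ = a * (b * (u : R) * b) := by simp only [mul_assoc]
      _ = 1 := by rw [hu, hab]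
  have h2 : b = ((u⁻¹ : Rˣ) : R) := by
    calc b = ((u⁻¹ : Rˣ) : R) * ((u : R) * b) := by rw [← mul_assoc, Units.inv_mul, one_mul]
      _ = _ := by rw [h1, mul_one]
  have h3 : a = (u : R) := by
    calc a = a * (b * (u : R)) := by rw [h2, Units.inv_mul, mul_one]
      _ = (u : R) := by rw [← mul_assoc, hab, one_mul]
  exact hba (by rw [h3]; rw [h2, Units.inv_mul])

/-- There is a `*`-regular ring with positive definite involution that is not directly finite. -/
theorem result : ∃ (R : Type) (_ : Ring R) (_ : StarRing R),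
    StarRegular R ∧ ¬ DirectlyFinite R ∧ ¬ UnitRegular R ∧
    -- the involution is positive definite
    (∀ (n : ℕ) (x : Fin n → R), ∑ i, star (x i) * x i = 0 → ∀ i, x i = 0) ∧
    -- all matrix rings are `*`-regular (conjugate transpose) and, for `n ≥ 1`, not directly finite
    (∀ n : ℕ, StarRegular (Matrix (Fin n) (Fin n) R)) ∧
    (∀ n : ℕ, 0 < n → ¬ DirectlyFinite (Matrix (Fin n) (Fin n) R) ∧
      ¬ UnitRegular (Matrix (Fin n) (Fin n) R)) ∧
    -- `R` has a `*`-ideal `I`, all of whose corners are unit-regular, with `R/I` a division ring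
    (∃ I : TwoSidedIdeal R, (1 : R) ∉ I ∧ (∀ x ∈ I, star x ∈ I) ∧
      (∀ x, x ∉ I → ∃ y, x * y - 1 ∈ I ∧ y * x - 1 ∈ I) ∧
      (∀ e ∈ I, e * e = e → ∀ a, e * a * e = a →
        ∃ u v, e * u * e = u ∧ e * v * e = v ∧ u * v = e ∧ v * u = e ∧ a * u * a = a)) ∧
    -- `R` is subdirectly irreducible
    (∃ p : R, p ≠ 0 ∧ ∀ J : TwoSidedIdeal R, (∃ x ∈ J, x ≠ 0) → p ∈ J) := by
  obtain ⟨z, hz1, hz2⟩ := Pool.Agent.KS6_27.SRb.y_left
  have hdf : ¬ DirectlyFinite Pool.Agent.W408.SR.RR := fun h => hz2 (h _ _ hz1)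
  have hmat : ∀ n : ℕ, 0 < n →
      ¬ DirectlyFinite (Matrix (Fin n) (Fin n) Pool.Agent.W408.SR.RR) := by
    intro n hn h
    apply hz2
    have h1 : Matrix.scalar (Fin n) z * Matrix.scalar (Fin n) Pool.Agent.W408.SR.yR = 1 := by
      rw [← map_mul, hz1, map_one]
    have h2 := h _ _ h1
    rw [← map_mul] at h2
    have h3 := congrFun (congrFun h2 ⟨0, hn⟩) ⟨0, hn⟩
    simpa using h3
  refine ⟨Pool.Agent.W408.SR.RR, inferInstance, inferInstance,
    ⟨Pool.Agent.W408.SR.RR_regular, Pool.Agent.W408.SR.RR_proper⟩, hdf, not_unitRegular hdf,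
    fun n x h i => Pool.Agent.KS6_27.SRb.RR_pos x h i, ?_,
    fun n hn => ⟨hmat n hn, not_unitRegular (hmat n hn)⟩, ?_, ?_⟩
  · intro n
    refine ⟨Pool.Agent.KS6_27.SRa.matrix_regular Pool.Agent.W408.SR.RR_regular n, ?_⟩
    intro A hA
    ext i j
    have h1 := congrFun (congrFun hA j) j
    rw [Matrix.star_eq_conjTranspose, Matrix.mul_apply] at h1
    simp only [Matrix.conjTranspose_apply, Matrix.zero_apply] at h1
    rw [Pool.Agent.KS6_27.SRb.RR_pos (fun i => A i j) h1 i]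
    rfl
  · refine ⟨Pool.Agent.W408.SR.FI, Pool.Agent.KS6_27.SRb.one_nmem,
      Pool.Agent.KS6_27.SRb.FI_star, Pool.Agent.KS6_27.SRb.RR_div, ?_⟩
    intro e he hee a ha
    obtain ⟨u, v, h1, h2, h3, h4, h5⟩ := Pool.Agent.KS6_27.SRb.corner_FI e he hee a ha
    exact ⟨u, v, h1, h2, h3, h4, h5.symm⟩
  · refine ⟨Pool.Agent.W408.SR.pR, Pool.Agent.W408.SR.pR_ne, ?_⟩
    rintro J ⟨x, hx, h0⟩
    exact Pool.Agent.W408.SR.pR_mem J x hx h0

end Pool.Agent.Results.MP_7249a2_al.NotDirectlyFinite
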